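import Mathlib

set_option autoImplicit false
set_option maxHeartbeats 400000

open scoped Quaternion

namespace Pool.Agent.Results.MP_b9311c_al.QuatCSA

/-- `A` is an abelian subgroup -/
def IsAb {G : Type} [Group G] (A : Subgroup G) : Prop := ∀ x ∈ A, ∀ y ∈ A, x * y = y * x

/-- every maximal abelian subgroup is malnormal -/
def IsCSA (G : Type) [Group G] : Prop :=
  ∀ A : Subgroup G, IsAb A → (∀ B : Subgroup G, IsAb B → A ≤ B → B = A) →
    ∀ g : G, g ∉ A → A ⊓ A.map (MulAut.conj g).toMonoidHom = ⊥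

instance : Fact (Nat.Prime 5) := ⟨by norm_num⟩

abbrev Z := ℤ_[5]
abbrev Q := ℍ[ℤ_[5], -3, 0, 5]

noncomputable def red : Z →+* ZMod 5 := PadicInt.toZMod

theorem red_zero (x : Z) : red x = 0 ↔ ‖x‖ < 1 := by
  rw [← PadicInt.mem_nonunits, ← IsLocalRing.mem_maximalIdeal, ← PadicInt.ker_toZMod]; rfl

theorem red_dvd (x : Z) (h : red x = 0) : ∃ y, x = 5 * y := by
  obtain ⟨y, hy⟩ := (PadicInt.norm_lt_one_iff_dvd x).1 ((red_zero x).1 h)
  exact ⟨y, by simpa using hy⟩

theorem red5 : red 5 = 0 := by rw [map_ofNat]; decide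

theorem red_cont : Continuous red := by
  refine continuous_of_continuousAt_zero red.toAddMonoidHom ?_
  rw [ContinuousAt, map_zero, nhds_discrete (ZMod 5), Filter.tendsto_pure]
  filter_upwards [Metric.ball_mem_nhds (0 : Z) one_pos] with x hx
  exact (red_zero x).2 (by simpa using hx)

theorem descent (n : ℕ) : ∀ b c d : Z, 3 * b ^ 2 = 5 * (c ^ 2 + 3 * d ^ 2) →
    5 ^ n ∣ b ∧ 5 ^ n ∣ c ∧ 5 ^ n ∣ d := by
  induction n with
  | zero => intros; simp
  | succ n ih =>
    intro b c d h
    have h1 := congrArg red h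
    rw [map_mul red 5, red5, zero_mul] at h1
    simp only [map_mul, map_pow, map_ofNat] at h1
    obtain ⟨b1, rfl⟩ := red_dvd b (by
      revert h1; generalize red b = x; revert x; decide)
    have h2 : 5 * (3 * b1 ^ 2) = c ^ 2 + 3 * d ^ 2 :=
      mul_left_cancel₀ (show (5 : Z) ≠ 0 by norm_num) (by linear_combination h)
    have h3 := congrArg red h2
    rw [map_mul red 5, red5, zero_mul] at h3
    simp only [map_mul, map_pow, map_add, map_ofNat] at h3
    have h4 : red c = 0 ∧ red d = 0 := by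
      revert h3; generalize red c = x; generalize red d = y; revert x y; decide
    obtain ⟨c1, rfl⟩ := red_dvd c h4.1
    obtain ⟨d1, rfl⟩ := red_dvd d h4.2
    obtain ⟨e1, e2, e3⟩ := ih b1 c1 d1
      (mul_left_cancel₀ (show (5 : Z) ≠ 0 by norm_num) (by linear_combination h2))
    rw [pow_succ']
    exact ⟨mul_dvd_mul_left _ e1, mul_dvd_mul_left _ e2, mul_dvd_mul_left _ e3⟩

theorem zero_of_dvd (b : Z) (h : ∀ n : ℕ, 5 ^ n ∣ b) : b = 0 := by
  by_contra hb
  have h5 : ¬ IsUnit (5 : Z) := fun hu => by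
    have := hu.map red
    rw [red5] at this
    exact not_isUnit_zero this
  obtain ⟨n, hn⟩ := FiniteMultiplicity.of_not_isUnit h5 hb
  exact hn (h _)

theorem aniso (b c d : Z) (h : 3 * b ^ 2 = 5 * (c ^ 2 + 3 * d ^ 2)) : b = 0 ∧ c = 0 ∧ d = 0 :=
  ⟨zero_of_dvd _ fun n => (descent n b c d h).1, zero_of_dvd _ fun n => (descent n b c d h).2.1,
    zero_of_dvd _ fun n => (descent n b c d h).2.2⟩

theorem pivot {A : Type*} [CommRing A] [IsDomain A] (p q r vp vq vr wp wq wr : A) (hp : p ≠ 0)
    (h1 : p * vq = q * vp) (h2 : p * vr = r * vp) (h3 : p * wq = q * wp) (h4 : p * wr = r * wp) :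
    vp * wq = vq * wp ∧ vp * wr = vr * wp ∧ vq * wr = vr * wq := by
  refine ⟨mul_left_cancel₀ hp ?_, mul_left_cancel₀ hp ?_, mul_left_cancel₀ (mul_ne_zero hp hp) ?_⟩
  · linear_combination vp * h3 - wp * h1
  · linear_combination vp * h4 - wp * h2
  · linear_combination p * wr * h1 - p * wq * h2 + q * vp * h4 - r * vp * h3

theorem comm_iff (u v : Q) : u * v = v * u ↔
    u.imI * v.imJ = u.imJ * v.imI ∧ u.imI * v.imK = u.imK * v.imI ∧
      u.imJ * v.imK = u.imK * v.imJ := by
  constructor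
  · intro h
    have h1 := congrArg QuaternionAlgebra.imI h
    have h2 := congrArg QuaternionAlgebra.imJ h
    have h3 := congrArg QuaternionAlgebra.imK h
    simp only [QuaternionAlgebra.imI_mul, QuaternionAlgebra.imJ_mul,
      QuaternionAlgebra.imK_mul] at h1 h2 h3
    refine ⟨mul_left_cancel₀ (show (2 : Z) ≠ 0 by norm_num) ?_,
      mul_left_cancel₀ (show (6 : Z) ≠ 0 by norm_num) ?_,
      mul_left_cancel₀ (show (10 : Z) ≠ 0 by norm_num) ?_⟩
    · linear_combination h3
    · linear_combination -h2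
    · linear_combination -h1
  · rintro ⟨h1, h2, h3⟩
    ext1
    · simp only [QuaternionAlgebra.re_mul]; ring
    · simp only [QuaternionAlgebra.imI_mul]; linear_combination (-10) * h3
    · simp only [QuaternionAlgebra.imJ_mul]; linear_combination (-6) * h2
    · simp only [QuaternionAlgebra.imK_mul]; linear_combination 2 * h1

theorem ca (u v w : Q) (hu : ¬ (u.imI = 0 ∧ u.imJ = 0 ∧ u.imK = 0)) (h1 : u * v = v * u)
    (h2 : u * w = w * u) : v * w = w * v := by
  rw [comm_iff] at h1 h2 ⊢
  obtain ⟨a1, a2, a3⟩ := h1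
  obtain ⟨b1, b2, b3⟩ := h2
  by_cases hI : u.imI = 0
  · by_cases hJ : u.imJ = 0
    · have hK : u.imK ≠ 0 := fun hK => hu ⟨hI, hJ, hK⟩
      obtain ⟨c1, c2, c3⟩ := pivot _ _ _ _ _ _ _ _ _ hK a2.symm a3.symm b2.symm b3.symm
      exact ⟨c3, by linear_combination -c1, by linear_combination -c2⟩
    · obtain ⟨c1, c2, c3⟩ := pivot _ _ _ _ _ _ _ _ _ hJ a1.symm a3 b1.symm b3
      exact ⟨by linear_combination -c1, c3, c2⟩
  · exact pivot _ _ _ _ _ _ _ _ _ hI a1 a2 b1 b2

noncomputable def nrm (u : Q) : Z := u.re ^ 2 + 3 * u.imI ^ 2 - 5 * u.imJ ^ 2 - 15 * u.imK ^ 2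

theorem nrm_unit (u : unitary Q) : nrm u = 1 := by
  have := congrArg QuaternionAlgebra.re u.2.1
  simp only [QuaternionAlgebra.re_mul, QuaternionAlgebra.re_star, QuaternionAlgebra.imI_star,
    QuaternionAlgebra.imJ_star, QuaternionAlgebra.imK_star, QuaternionAlgebra.re_one] at this
  rw [nrm]; linear_combination this

theorem key (g x y : Q) (hg : g.re ≠ 0) (hgn : nrm g = 1) (hx : nrm x = 1) (hy : nrm y = 1)
    (h : g * y = x * g) (hy0 : ¬ (y.imI = 0 ∧ y.imJ = 0 ∧ y.imK = 0)) (hc : x * y = y * x) :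
    x = y := by
  have hre : x.re = y.re := by
    have h0 := congrArg QuaternionAlgebra.re h
    have h1 := congrArg QuaternionAlgebra.imI h
    have h2 := congrArg QuaternionAlgebra.imJ h
    have h3 := congrArg QuaternionAlgebra.imK h
    simp only [QuaternionAlgebra.re_mul, QuaternionAlgebra.imI_mul, QuaternionAlgebra.imJ_mul,
      QuaternionAlgebra.imK_mul] at h0 h1 h2 h3
    rw [nrm] at hgn
    linear_combination (y.re - x.re) * hgn - g.re * h0 - 3 * g.imI * h1 + 5 * g.imJ * h2
      + 15 * g.imK * h3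
  obtain ⟨c1, c2, c3⟩ := (comm_iff x y).1 hc
  rw [nrm] at hx hy
  rw [hre] at hx
  have hL : (3 * x.imI * y.imI - 5 * x.imJ * y.imJ - 15 * x.imK * y.imK - (1 - y.re ^ 2)) *
      (3 * x.imI * y.imI - 5 * x.imJ * y.imJ - 15 * x.imK * y.imK + (1 - y.re ^ 2)) = 0 := by
    linear_combination (3 * y.imI ^ 2 - 5 * y.imJ ^ 2 - 15 * y.imK ^ 2) * hx + (1 - y.re ^ 2) * hy
      + 15 * (x.imI * y.imJ - x.imJ * y.imI) * c1 + 45 * (x.imI * y.imK - x.imK * y.imI) * c2
      - 75 * (x.imJ * y.imK - x.imK * y.imJ) * c3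
  rcases mul_eq_zero.1 hL with e | e
  · obtain ⟨e1, e2, e3⟩ := aniso (x.imI - y.imI) (x.imJ - y.imJ) (x.imK - y.imK)
      (by linear_combination hx + hy - 2 * e)
    ext1
    exacts [hre, sub_eq_zero.1 e1, sub_eq_zero.1 e2, sub_eq_zero.1 e3]
  · exfalso
    obtain ⟨e1, e2, e3⟩ := aniso (x.imI + y.imI) (x.imJ + y.imJ) (x.imK + y.imK)
      (by linear_combination hx + hy + 2 * e)
    have h1 := congrArg QuaternionAlgebra.imI h
    have h2 := congrArg QuaternionAlgebra.imJ h
    have h3 := congrArg QuaternionAlgebra.imK h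
    simp only [QuaternionAlgebra.imI_mul, QuaternionAlgebra.imJ_mul,
      QuaternionAlgebra.imK_mul] at h1 h2 h3
    rw [eq_neg_of_add_eq_zero_left e1, eq_neg_of_add_eq_zero_left e2,
      eq_neg_of_add_eq_zero_left e3, hre] at h1 h2 h3
    have h2g : 2 * g.re ≠ 0 := mul_ne_zero (by norm_num) hg
    exact hy0 ⟨mul_left_cancel₀ h2g (by linear_combination h1),
      mul_left_cancel₀ h2g (by linear_combination h2),
      mul_left_cancel₀ h2g (by linear_combination h3)⟩

noncomputable instance : TopologicalSpace Q :=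
  TopologicalSpace.induced (QuaternionAlgebra.equivProd (-3 : Z) 0 5) inferInstance

noncomputable def homeo : Q ≃ₜ Z × Z × Z × Z :=
  (QuaternionAlgebra.equivProd (-3 : Z) 0 5).toHomeomorphOfIsInducing ⟨rfl⟩

theorem c_re : Continuous (fun u : Q => u.re) := continuous_fst.comp homeo.continuous
theorem c_I : Continuous (fun u : Q => u.imI) := continuous_snd.fst.comp homeo.continuous
theorem c_J : Continuous (fun u : Q => u.imJ) := continuous_snd.snd.fst.comp homeo.continuous
theorem c_K : Continuous (fun u : Q => u.imK) := continuous_snd.snd.snd.comp homeo.continuous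

theorem c_mk {X : Type} [TopologicalSpace X] (f : X → Q) (h0 : Continuous fun x => (f x).re)
    (h1 : Continuous fun x => (f x).imI) (h2 : Continuous fun x => (f x).imJ)
    (h3 : Continuous fun x => (f x).imK) : Continuous f :=
  continuous_induced_rng.2 (h0.prodMk (h1.prodMk (h2.prodMk h3)))

instance : ContinuousMul Q := ⟨by
  have := c_re; have := c_I; have := c_J; have := c_K
  refine c_mk _ ?_ ?_ ?_ ?_ <;> simp only [QuaternionAlgebra.re_mul, QuaternionAlgebra.imI_mul,
    QuaternionAlgebra.imJ_mul, QuaternionAlgebra.imK_mul] <;> fun_prop⟩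

instance : ContinuousStar Q := ⟨by
  have := c_re; have := c_I; have := c_J; have := c_K
  refine c_mk _ ?_ ?_ ?_ ?_ <;> simp only [QuaternionAlgebra.re_star, QuaternionAlgebra.imI_star,
    QuaternionAlgebra.imJ_star, QuaternionAlgebra.imK_star] <;> fun_prop⟩

instance : CompactSpace Q := homeo.symm.compactSpace
instance : T2Space Q := homeo.symm.t2Space
instance : TotallyDisconnectedSpace Q := homeo.symm.totallyDisconnectedSpace

def cond (a b : ZMod 5) : Prop := (a = 1 ∧ b = 0) ∨ (a = 2 ∧ b = 3) ∨ (a = 2 ∧ b = 2)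

instance (a b : ZMod 5) : Decidable (cond a b) := by unfold cond; infer_instance

noncomputable def G : Subgroup (unitary Q) where
  carrier := {g | cond (red (g : Q).re) (red (g : Q).imI)}
  one_mem' := by simp [cond]
  mul_mem' {g h} hg hh := by
    simp only [Set.mem_ofPred_eq, Submonoid.coe_mul, QuaternionAlgebra.re_mul,
      QuaternionAlgebra.imI_mul, map_add, map_sub, map_mul, map_neg, red5, map_zero,
      map_ofNat] at hg hh ⊢
    revert hg hh
    simp only [show (5 : ZMod 5) = 0 by decide, mul_zero, zero_mul, add_zero, sub_zero]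
    generalize red (g : Q).re = a; generalize red (g : Q).imI = b
    generalize red (h : Q).re = c; generalize red (h : Q).imI = d
    revert a b c d; decide
  inv_mem' {g} hg := by
    have e : ((g⁻¹ : unitary Q) : Q) = star (g : Q) := rfl
    simp only [Set.mem_ofPred_eq, e, QuaternionAlgebra.re_star, QuaternionAlgebra.imI_star,
      zero_mul, add_zero, map_neg] at hg ⊢
    revert hg
    generalize red (g : Q).re = a; generalize red (g : Q).imI = b
    revert a b; decide

theorem G_closed : IsClosed (G : Set (unitary Q)) := by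
  have hc : Continuous fun g : unitary Q => (red (g : Q).re, red (g : Q).imI) :=
    (red_cont.comp (c_re.comp continuous_subtype_val)).prodMk
      (red_cont.comp (c_I.comp continuous_subtype_val))
  exact (isClosed_discrete {p : ZMod 5 × ZMod 5 | cond p.1 p.2}).preimage hc

instance : CompactSpace (unitary Q) := isCompact_iff_compactSpace.1 isClosed_unitary.isCompact
instance : CompactSpace G := isCompact_iff_compactSpace.1 G_closed.isCompact

theorem re_ne (g : G) : ((g : unitary Q) : Q).re ≠ 0 := by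
  intro h
  have := g.2
  simp only [G, Subgroup.mem_mk, Submonoid.mem_mk, Subsemigroup.mem_mk, Set.mem_ofPred_eq, h,
    map_zero] at this
  revert this
  generalize red _ = b
  revert b; decide

theorem pure_ne (y : G) (hy : y ≠ 1) : ¬ (((y : unitary Q) : Q).imI = 0 ∧
    ((y : unitary Q) : Q).imJ = 0 ∧ ((y : unitary Q) : Q).imK = 0) := by
  rintro ⟨h1, h2, h3⟩
  have hn := nrm_unit y
  rw [nrm, h1, h2, h3] at hn
  have : (((y : unitary Q) : Q).re - 1) * (((y : unitary Q) : Q).re + 1) = 0 := by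
    linear_combination hn
  rcases mul_eq_zero.1 this with e | e
  · apply hy
    apply Subtype.ext; apply Subtype.ext
    ext1
    exacts [sub_eq_zero.1 e, h1, h2, h3]
  · have := y.2
    simp only [G, Subgroup.mem_mk, Submonoid.mem_mk, Subsemigroup.mem_mk, Set.mem_ofPred_eq, h1,
      eq_neg_of_add_eq_zero_left e, map_zero, map_neg, map_one] at this
    revert this; decide

theorem coe_inj {x y : G} (h : ((x : unitary Q) : Q) = ((y : unitary Q) : Q)) : x = y :=
  Subtype.ext (Subtype.ext h)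

theorem csa : IsCSA G := by
  intro A hA hmax g hg
  rw [eq_bot_iff]
  rintro x ⟨hx, y, hy, hxy⟩
  by_contra hx1
  have hxy' : g * y = x * g := by
    rw [← hxy]; simp
  have hy1 : y ≠ 1 := by
    rintro rfl
    apply hx1
    rw [Subgroup.mem_bot]
    simpa using hxy'.symm
  have e : x = y := coe_inj (key _ _ _ (re_ne g) (nrm_unit _) (nrm_unit _) (nrm_unit _)
    (congrArg (fun z : G => ((z : unitary Q) : Q)) hxy') (pure_ne y hy1)
    (congrArg (fun z : G => ((z : unitary Q) : Q)) (hA x hx y hy)))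
  rw [e] at hxy'
  apply hg
  rw [← hmax (Subgroup.centralizer {y}) ?_ ?_]
  · rintro _ rfl; exact hxy'.symm
  · intro v hv w hw
    exact coe_inj (ca _ _ _ (pure_ne y hy1)
      (congrArg (fun z : G => ((z : unitary Q) : Q)) (hv y rfl))
      (congrArg (fun z : G => ((z : unitary Q) : Q)) (hw y rfl)))
  · rintro a ha _ rfl; exact hA _ hy a ha

abbrev Q5 := ℍ[ZMod 5, -3, 0, 5]

instance : DecidableEq Q5 := fun a b =>
  decidable_of_iff (a.re = b.re ∧ a.imI = b.imI ∧ a.imJ = b.imJ ∧ a.imK = b.imK)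
    QuaternionAlgebra.ext_iff.symm

noncomputable def rq : G →* Q5 where
  toFun g := ⟨red ((g : unitary Q) : Q).re, red ((g : unitary Q) : Q).imI,
    red ((g : unitary Q) : Q).imJ, red ((g : unitary Q) : Q).imK⟩
  map_one' := by ext <;> simp
  map_mul' g h := by ext <;> simp [map_ofNat]

theorem ker_open : IsOpen (rq.ker : Set G) := by
  have hv : Continuous fun g : G => ((g : unitary Q) : Q) :=
    continuous_subtype_val.comp continuous_subtype_val
  have hc : Continuous fun g : G => (red ((g : unitary Q) : Q).re, red ((g : unitary Q) : Q).imI,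
      red ((g : unitary Q) : Q).imJ, red ((g : unitary Q) : Q).imK) :=
    (red_cont.comp (c_re.comp hv)).prodMk ((red_cont.comp (c_I.comp hv)).prodMk
      ((red_cont.comp (c_J.comp hv)).prodMk (red_cont.comp (c_K.comp hv))))
  convert (isOpen_discrete {((1, 0, 0, 0) : ZMod 5 × ZMod 5 × ZMod 5 × ZMod 5)}).preimage hc
  ext g
  simp [rq, QuaternionAlgebra.ext_iff]

theorem exists_half : ∃ h : Z, 2 * h = 1 := by
  have : IsUnit (2 : Z) := by
    by_contra hn
    have := (red_zero 2).2 (PadicInt.not_isUnit_iff.1 hn)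
    rw [map_ofNat] at this
    revert this; decide
  exact this.exists_right_inv

theorem exists_om : ∃ w : G, rq w = ⟨2, 3, 0, 0⟩ := by
  obtain ⟨h, hh⟩ := exists_half
  have hr : red h = 3 := by
    have := congrArg red hh
    rw [map_mul, map_ofNat, map_one] at this
    revert this; generalize red h = x; revert x; decide
  have e : 4 * h ^ 2 = 1 := by linear_combination (2 * h + 1) * hh
  refine ⟨⟨⟨⟨-h, h, 0, 0⟩, ?_, ?_⟩, ?_⟩, ?_⟩
  · ext1 <;> simp; linear_combination e
  · ext1 <;> simp; linear_combination e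
  · change cond (red (-h)) (red h)
    rw [map_neg, hr]; decide
  · ext1 <;> simp [rq, hr]; decide

theorem exists_u : ∃ w : G, rq w = ⟨1, 0, 1, 0⟩ := by
  refine ⟨⟨⟨⟨-9, 0, -4, 0⟩, ?_, ?_⟩, ?_⟩, ?_⟩
  · ext1 <;> simp <;> norm_num
  · ext1 <;> simp <;> norm_num
  · change cond (red (-9)) (red 0)
    rw [map_neg, map_ofNat, map_zero]; decide
  · ext1 <;> simp [rq, map_ofNat] <;> decide

theorem prime_eq (p q : ℕ) (hp : p.Prime) (hq : q.Prime) (h : IsPGroup p (G ⧸ rq.ker)) (w : G)
    (h1 : rq w ≠ 1) (h2 : rq w ^ q = 1) : q = p := by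
  obtain ⟨k, hk⟩ := h (QuotientGroup.mk w)
  rw [← QuotientGroup.mk_pow, QuotientGroup.eq_one_iff, MonoidHom.mem_ker, map_pow] at hk
  have : Fact q.Prime := ⟨hq⟩
  have ho := orderOf_eq_prime h2 h1
  have := orderOf_dvd_of_pow_eq_one hk
  rw [ho] at this
  exact (Nat.prime_dvd_prime_iff_eq hq hp).1 (hq.dvd_of_dvd_pow this)

theorem result : ∃ (Γ : Type) (_ : Group Γ) (_ : TopologicalSpace Γ),
    IsTopologicalGroup Γ ∧ CompactSpace Γ ∧ T2Space Γ ∧ TotallyDisconnectedSpace Γ ∧
    (∃ x y : Γ, x * y ≠ y * x) ∧ IsCSA Γ ∧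
    ∃ U : OpenNormalSubgroup Γ, ∀ p : ℕ, p.Prime → ¬ IsPGroup p (Γ ⧸ U.toSubgroup) := by
  obtain ⟨w, hw⟩ := exists_om
  obtain ⟨u, hu⟩ := exists_u
  refine ⟨G, inferInstance, inferInstance, inferInstance, inferInstance, inferInstance,
    inferInstance, ⟨w, u, fun h => ?_⟩, csa, ⟨⟨rq.ker, ker_open⟩, inferInstance⟩, fun p hp h => ?_⟩
  · have := congrArg rq h
    rw [map_mul, map_mul, hw, hu] at this
    revert this; decide
  · have h3 := prime_eq p 3 hp (by norm_num) h w (by rw [hw]; decide) (by rw [hw]; decide)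
    have h5 := prime_eq p 5 hp (by norm_num) h u (by rw [hu]; decide) (by rw [hu]; decide)
    omega

end Pool.Agent.Results.MP_b9311c_al.QuatCSA
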